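import Pool.Agent.H31.SX.Defs

/-!
# The twelfth moment in the whole conductor: targets about finite rings
-/

set_option autoImplicit false

open Finset Complex

namespace Pool.Agent.H29.HT

open Pool.Agent.H31.SX (ND)
open Pool.Agent.H29.TC (AC MC)

section ring

variable {R : Type} [CommRing R]

/-- the logarithm of `1 + x` for `x ^ 6 = 0` (`h = 1 / 2`, `i = 1 / 3`, `f = 1 / 5`) -/
def lg5 (h i f x : R) : R := x - h * x ^ 2 + i * x ^ 3 - h ^ 2 * x ^ 4 + f * x ^ 5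

/-- the phase after the first difference: `2 / Y + (2 / 3) a ^ 2 / Y ^ 3 + (2 / 5) a ^ 4 / Y ^ 5`
(`i = 1 / 3`, `f = 1 / 5`) -/
noncomputable def h5 (i f a Y : R) : R :=
  2 * Ring.inverse Y + 2 * i * a ^ 2 * Ring.inverse Y ^ 3 + 2 * f * a ^ 4 * Ring.inverse Y ^ 5

/-- `γ` is a frequency of the multiplicative character `η` on `1 + J`. -/
def Fq (h i f : R) (θ : R → ℂ) (J : Ideal R) (η : R → ℂ) (γ : R) : Prop :=
  ∀ x ∈ J, η (1 + x) = θ (γ * lg5 h i f x)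

open scoped Classical in
/-- the correlation sum over the residue class of `Y₀` modulo `I` -/
noncomputable def CC [Fintype R] (θ : R → ℂ) (I : Ideal R) (i f a Y₀ γ γ' x : R) : ℂ :=
  ∑ τ : R, if τ ∈ I then θ (γ * h5 i f a (Y₀ + τ + x) - γ' * h5 i f a (Y₀ + τ)) else 0

open scoped Classical in
/-- the sum over the residue class of `Y₀` modulo `I` -/
noncomputable def WC [Fintype R] (θ : R → ℂ) (I : Ideal R) (i f a Y₀ γ b : R) : ℂ :=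
  ∑ τ : R, if τ ∈ I then θ (γ * h5 i f a (Y₀ + τ) - b * τ) else 0

end ring

/-- (RL) the frequencies of the multiplicative characters. -/
def R_RL : Prop :=
  ∀ (R : Type) [CommRing R] [Fintype R] (θ : R → ℂ) (J : Ideal R) (h i f : R), ND θ →
    J ^ 6 = ⊥ → 2 * h = 1 → 3 * i = 1 → 5 * f = 1 →
    (∀ η : R → ℂ, MC η → ∃ γ : R, Fq h i f θ J η γ) ∧
    (∀ (η η' : R → ℂ) (γ γ' : R), Fq h i f θ J η γ → Fq h i f θ J η' γ' →
      ∀ κ : Ideal R, κ ≤ J →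
        ((∀ x ∈ κ, η (1 + x) = η' (1 + x)) ↔ ∀ t ∈ κ, (γ - γ') * t = 0)) ∧
    (∀ (η : R → ℂ) (γ : R), Fq h i f θ J η γ →
      (∀ w : R, w ≠ 0 → ∃ r : R, IsUnit (1 + r * w) ∧ η (1 + r * w) ≠ 1) →
      ∀ a ∈ J, γ * a = 0 → a = 0) ∧
    ∀ (η : R → ℂ) (γ : R), MC η → Fq h i f θ J η γ → ∀ a ∈ J, ∀ X : R,
      (IsUnit X → η (X + a) * (starRingEnd ℂ) (η (X - a)) = θ (γ * (a * h5 i f a X))) ∧
      (¬ IsUnit X → η (X + a) = 0 ∧ η (X - a) = 0)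

/-- (RC) the correlation sums. -/
def R_RC : Prop :=
  ∀ (R : Type) [CommRing R] [Fintype R] (θ : R → ℂ) (I : Ideal R) (N : ℕ), ND θ →
    I ^ N = ⊥ → IsUnit (2 : R) → ∀ i f a Y₀ γ γ' : R, a ∈ I → IsUnit Y₀ → IsUnit γ →
    (∀ x ∈ I, ‖CC θ I i f a Y₀ γ γ' x‖ ^ 2 ≤
      (Fintype.card R : ℝ) * ({δ : R | (γ - γ') * δ = 0}.ncard : ℝ)) ∧
    (∀ x ∈ I, CC θ I i f a Y₀ γ γ' x ≠ 0 → ∀ δ ∈ I, (γ - γ') * δ = 0 → x * δ = 0) ∧
    (∀ x ∈ I, CC θ I i f a Y₀ γ γ' x ≠ 0 →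
      ∃ v n : R, (∀ t ∈ I, n * t = 0) ∧ x = (γ - γ') * v + n) ∧
    (CC θ I i f a Y₀ γ γ' 0 ≠ 0 → ∀ δ ∈ I, (γ - γ') * δ = 0)

/-- (RW) the sums over a residue class with a linear phase. -/
def R_RW : Prop :=
  ∀ (R : Type) [CommRing R] [Fintype R] (θ : R → ℂ) (I : Ideal R) (N : ℕ), ND θ →
    I ^ N = ⊥ → IsUnit (2 : R) → ∀ i f a Y₀ γ b : R, a ∈ I → IsUnit Y₀ → IsUnit γ →
    ‖WC θ I i f a Y₀ γ b‖ ^ 2 ≤ (Fintype.card R : ℝ)

end Pool.Agent.H29.HT
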