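import Pool.Agent.H29.HT.LG
import Pool.Agent.H29.HT.TargetsR

/-!
# The rows about finite rings
-/

set_option autoImplicit false

open Finset Complex

namespace Pool.Agent.H29.HT

open Pool.Agent.H31.SX (ND)
open Pool.Agent.H29.TC (AC MC)

/-- (RL) the frequencies of the multiplicative characters. -/
theorem pf_RL : R_RL := by
  intro R _ _ θ J h i f hθ hJ hh hi hf
  refine ⟨fun η hη => ?_, fun η η' γ γ' hη hη' κ hκ => ⟨fun H => ?_, fun H => ?_⟩,
    fun η γ hη hprim a ha h0 => ?_, fun η γ hM hη a ha X => ?_⟩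
  · obtain ⟨φ, hφ, hlog⟩ := exists_char hη hJ hh hi hf
    obtain ⟨γ, hγ⟩ := (Pool.Agent.H86.SWX.pf_RA R θ hθ J).1 φ (fun x _ y _ => hφ.add x y)
      (fun x _ => hφ.norm x)
    refine ⟨γ, fun x hx => ?_⟩
    rw [hlog x hx]
    exact hγ _ (lq_mem h i f hx)
  · intro t ht
    apply hθ.nd
    intro s
    obtain ⟨x, hx, hxe⟩ := lq_surj hJ hh hi hf hκ (κ.mul_mem_left s ht)
    have h1 := H x hx
    rw [hη x (hκ hx), hη' x (hκ hx)] at h1
    have h2 : lg5 h i f x = s * t := hxe
    rw [h2] at h1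
    have h3 : s * ((γ - γ') * t) + γ' * (s * t) = γ * (s * t) := by ring
    have h4 := hθ.ac.add (s * ((γ - γ') * t)) (γ' * (s * t))
    rw [h3, h1] at h4
    exact (mul_eq_right₀ (hθ.ac.ne _)).1 h4.symm
  · intro x hx
    rw [hη x (hκ hx), hη' x (hκ hx)]
    have h1 := H _ (lq_mem h i f hx)
    congr 1
    have h2 : lg5 h i f x = lq h i f x := rfl
    rw [h2]
    linear_combination h1
  · by_contra ha0
    obtain ⟨s, hs⟩ := nondeg (θ := fun t => θ (γ * t)) hprim hJ hη ha ha0
    apply hs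
    have h1 : γ * (s * a) = 0 := by linear_combination s * h0
    show θ (γ * (s * a)) = 1
    rw [h1]
    exact hθ.ac.zero
  · have h1 := pf_RH6 (θ := fun t => θ (γ * t)) hM hJ hh hi hf hη ha X
    refine ⟨fun hX => h1.1 hX, fun hX => ⟨h1.2 hX, ?_⟩⟩
    have h2 := (pf_RH6 (θ := fun t => θ (γ * t)) hM hJ hh hi hf hη (J.neg_mem ha) X).2 hX
    rw [sub_eq_add_neg]
    exact h2

/-- (RC) the correlation sums. -/
theorem pf_RC : R_RC := by
  intro R _ _ θ I N hθ hI h2 i f a Y₀ γ γ' ha hY hγ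
  have e : ∀ x : R, CC θ I i f a Y₀ γ γ' x = CR θ I i f a Y₀ γ γ' x := fun x => rfl
  refine ⟨fun x hx => ?_, fun x hx hne δ hδ hw => ?_, fun x hx hne => ?_, fun hne => ?_⟩
  · have h1 := (pf_FC hθ hI h2 i f γ' ha hY hγ hx).2.2
    rw [e]
    have h3 : {s : R | s * (γ - γ') = 0} = {δ : R | (γ - γ') * δ = 0} := by
      ext s
      simp only [Set.mem_setOf_eq, mul_comm]
    rw [← h3]
    exact h1
  · rw [e] at hne
    obtain ⟨v, n, hn, hx'⟩ := (pf_FC hθ hI h2 i f γ' ha hY hγ hx).2.1 hne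
    rw [hx']
    linear_combination v * hw + hn δ hδ
  · rw [e] at hne
    exact (pf_FC hθ hI h2 i f γ' ha hY hγ hx).2.1 hne
  · rw [e] at hne
    exact (pf_FC hθ hI h2 i f γ' ha hY hγ I.zero_mem).1 rfl hne

/-- (RW) the sums over a residue class with a linear phase. -/
theorem pf_RW : R_RW := by
  classical
  intro R _ _ θ I N hθ hI h2 i f a Y₀ γ b ha hY hγ
  have hRC := pf_RC R θ I N hθ hI h2 i f a Y₀ γ γ ha hY hγ
  -- the correlation sums are supported on the annihilator
  have hsup : ∀ x ∈ I, CC θ I i f a Y₀ γ γ x ≠ 0 → ∀ t ∈ I, x * t = 0 := by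
    intro x hx hne t ht
    exact hRC.2.1 x hx hne t ht (by rw [sub_self, zero_mul])
  have hstar : ∀ z : R, (starRingEnd ℂ) (θ z) = θ (-z) := by
    intro z
    have h3 : θ z * θ (-z) = 1 := by
      rw [← hθ.ac.add, add_neg_cancel, hθ.ac.zero]
    have h4 : (starRingEnd ℂ) (θ z) * θ z = 1 := by
      rw [mul_comm, Complex.mul_conj, Complex.normSq_eq_norm_sq, hθ.ac.norm]
      norm_num
    calc (starRingEnd ℂ) (θ z) = (starRingEnd ℂ) (θ z) * (θ z * θ (-z)) := by rw [h3, mul_one]
      _ = θ (-z) := by rw [← mul_assoc, h4, one_mul]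
  -- the square
  have hsq : (WC θ I i f a Y₀ γ b * (starRingEnd ℂ) (WC θ I i f a Y₀ γ b)) =
      ∑ x : R, if x ∈ I then θ (-(b * x)) * CC θ I i f a Y₀ γ γ x else 0 := by
    unfold WC CC
    rw [map_sum, Finset.sum_mul_sum, Finset.sum_comm]
    calc ∑ σ : R, ∑ τ : R, (if τ ∈ I then θ (γ * h5 i f a (Y₀ + τ) - b * τ) else 0) *
          (starRingEnd ℂ) (if σ ∈ I then θ (γ * h5 i f a (Y₀ + σ) - b * σ) else 0)
        = ∑ σ : R, ∑ x : R, (if x + σ ∈ I then θ (γ * h5 i f a (Y₀ + (x + σ)) - b * (x + σ))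
            else 0) *
          (starRingEnd ℂ) (if σ ∈ I then θ (γ * h5 i f a (Y₀ + σ) - b * σ) else 0) := by
          refine Finset.sum_congr rfl fun σ _ => ?_
          exact (Equiv.sum_comp (Equiv.addRight σ) (fun τ =>
            (if τ ∈ I then θ (γ * h5 i f a (Y₀ + τ) - b * τ) else 0) *
            (starRingEnd ℂ) (if σ ∈ I then θ (γ * h5 i f a (Y₀ + σ) - b * σ) else 0))).symm
      _ = ∑ x : R, ∑ σ : R, (if x + σ ∈ I then θ (γ * h5 i f a (Y₀ + (x + σ)) - b * (x + σ))
            else 0) *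
          (starRingEnd ℂ) (if σ ∈ I then θ (γ * h5 i f a (Y₀ + σ) - b * σ) else 0) :=
          Finset.sum_comm
      _ = ∑ x : R, if x ∈ I then θ (-(b * x)) * ∑ τ : R, (if τ ∈ I then
            θ (γ * h5 i f a (Y₀ + τ + x) - γ * h5 i f a (Y₀ + τ)) else 0) else 0 := by
          refine Finset.sum_congr rfl fun x _ => ?_
          by_cases hx : x ∈ I
          · rw [if_pos hx, Finset.mul_sum]
            refine Finset.sum_congr rfl fun σ _ => ?_
            by_cases hσ : σ ∈ I
            · rw [if_pos hσ, if_pos hσ, if_pos (I.add_mem hx hσ), hstar, ← hθ.ac.add,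
                ← hθ.ac.add]
              congr 1
              have h3 : Y₀ + (x + σ) = Y₀ + σ + x := by ring
              rw [h3]
              ring
            · rw [if_neg hσ, if_neg hσ, map_zero, mul_zero, mul_zero]
          · rw [if_neg hx]
            refine Finset.sum_eq_zero fun σ _ => ?_
            by_cases hσ : σ ∈ I
            · rw [if_neg, zero_mul]
              intro h3
              apply hx
              have h4 := I.sub_mem h3 hσ
              rwa [add_sub_cancel_right] at h4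
            · rw [if_neg hσ, map_zero, mul_zero]
  -- the size of the correlation sums
  have hcard : ∀ x : R, ‖CC θ I i f a Y₀ γ γ x‖ ≤ (Nat.card I : ℝ) := by
    intro x
    unfold CC
    refine (norm_sum_le _ _).trans ?_
    have h3 : ∀ τ : R, ‖(if τ ∈ I then
        θ (γ * h5 i f a (Y₀ + τ + x) - γ * h5 i f a (Y₀ + τ)) else 0 : ℂ)‖ =
        if τ ∈ I then (1 : ℝ) else 0 := by
      intro τ
      by_cases hτ : τ ∈ I
      · rw [if_pos hτ, if_pos hτ, hθ.ac.norm]
      · rw [if_neg hτ, if_neg hτ, norm_zero]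
    rw [Finset.sum_congr rfl fun τ _ => h3 τ, ← Finset.sum_filter, Finset.sum_const,
      nsmul_eq_mul, mul_one]
    refine le_of_eq ?_
    congr 1
    rw [Nat.card_eq_fintype_card, Fintype.card_subtype]
  have hcount := (Pool.Agent.H86.SWX.pf_RA R θ hθ I).2.2.1
  have h5 : ‖WC θ I i f a Y₀ γ b‖ ^ 2 =
      ‖WC θ I i f a Y₀ γ b * (starRingEnd ℂ) (WC θ I i f a Y₀ γ b)‖ := by
    rw [norm_mul, RCLike.norm_conj, sq]
  rw [h5, hsq]
  refine (norm_sum_le _ _).trans ?_
  calc ∑ x : R, ‖(if x ∈ I then θ (-(b * x)) * CC θ I i f a Y₀ γ γ x else 0 : ℂ)‖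
      ≤ ∑ x : R, if (∀ t ∈ I, x * t = 0) then (Nat.card I : ℝ) else 0 := by
        refine Finset.sum_le_sum fun x _ => ?_
        by_cases hx : x ∈ I
        · rw [if_pos hx, norm_mul, hθ.ac.norm, one_mul]
          by_cases hne : CC θ I i f a Y₀ γ γ x = 0
          · rw [hne, norm_zero]
            split_ifs <;> positivity
          · rw [if_pos (hsup x hx hne)]
            exact hcard x
        · rw [if_neg hx, norm_zero]
          split_ifs <;> positivity
    _ = (Nat.card I : ℝ) * ({y : R | ∀ t ∈ I, y * t = 0}.ncard : ℝ) := by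
        rw [← Finset.sum_filter, Finset.sum_const, nsmul_eq_mul, mul_comm]
        congr 2
        rw [Set.ncard_eq_toFinset_card']
        congr 1
        ext y
        simp
    _ = (Fintype.card R : ℝ) := hcount

end Pool.Agent.H29.HT
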