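import Pool.Agent.H29.HT.FR

/-!
# The correlation sums of the differences of a multiplicative character
-/

set_option autoImplicit false

open Finset Complex Polynomial

namespace Pool.Agent.H29.HT

open Pool.Agent.H31.SX
open Pool.Agent.H29.TC (AC MC)

variable {R : Type} [CommRing R]

/-- the phase after the first difference: `2 / X + (2 / 3) a ^ 2 / X ^ 3 + (2 / 5) a ^ 4 / X ^ 5`
(`i = 1 / 3`, `j = 1 / 5`) -/
noncomputable def hq (i j a X : R) : R :=
  2 * Ring.inverse X + 2 * i * a ^ 2 * Ring.inverse X ^ 3 +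
    2 * j * a ^ 4 * Ring.inverse X ^ 5

/-- the inverse as a polynomial -/
private theorem inv_poly {I : Ideal R} {N : ℕ} (hI : I ^ N = ⊥) {Y : R} (hY : IsUnit Y) :
    ∃ G : R[X], (∀ τ ∈ I, Ring.inverse (Y + τ) = G.eval τ) ∧
      (derivative G).eval 0 = -(Ring.inverse Y ^ 2) ∧
      (derivative (derivative G)).eval 0 = 2 * Ring.inverse Y ^ 3 ∧
      (derivative (derivative (derivative G))).eval 0 = -(6 * Ring.inverse Y ^ 4) := by
  obtain ⟨V, hV⟩ : ∃ V, V = Ring.inverse Y := ⟨_, rfl⟩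
  have hYV : Y * V = 1 := by rw [hV]; exact Ring.mul_inverse_cancel Y hY
  rw [← hV]
  obtain ⟨G, hG⟩ : ∃ G : R[X], G = ∑ k ∈ range (N + 4), C (V * (-V) ^ k) * X ^ k := ⟨_, rfl⟩
  have hc : ∀ k, k < N + 4 → G.coeff k = V * (-V) ^ k := by
    intro k hk
    rw [hG, finset_sum_coeff]
    simp only [coeff_C_mul, coeff_X_pow, mul_ite, mul_one, mul_zero]
    rw [Finset.sum_ite_eq, if_pos (Finset.mem_range.2 hk)]
  refine ⟨G, fun τ hτ => ?_, ?_, ?_, ?_⟩
  · have hτN : τ ^ (N + 4) = 0 := by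
      have h1 : τ ^ N ∈ I ^ N := Ideal.pow_mem_pow hτ N
      rw [hI, Ideal.mem_bot] at h1
      rw [pow_add, h1, zero_mul]
    have hgeo : (Y + τ) * G.eval τ = 1 := by
      rw [hG, eval_finset_sum]
      have h2 : ∀ M : ℕ, (Y + τ) * ∑ k ∈ range M, eval τ (C (V * (-V) ^ k) * X ^ k) =
          1 - (-V) ^ M * τ ^ M := by
        intro M
        induction M with
        | zero => simp
        | succ M ih =>
          rw [Finset.sum_range_succ, mul_add, ih, eval_mul, eval_C, eval_pow, eval_X]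
          linear_combination ((-V) ^ M * τ ^ M) * hYV
      rw [h2, hτN, mul_zero, sub_zero]
    have hu : IsUnit (Y + τ) := IsUnit.of_mul_eq_one _ hgeo
    calc Ring.inverse (Y + τ) = Ring.inverse (Y + τ) * ((Y + τ) * G.eval τ) := by
          rw [hgeo, mul_one]
      _ = G.eval τ := by
          rw [← mul_assoc, Ring.inverse_mul_cancel _ hu, one_mul]
  · rw [← coeff_zero_eq_eval_zero, coeff_derivative, hc 1 (by omega)]
    push_cast
    ring
  · rw [← coeff_zero_eq_eval_zero, coeff_derivative, coeff_derivative, hc 2 (by omega)]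
    push_cast
    ring
  · rw [← coeff_zero_eq_eval_zero, coeff_derivative, coeff_derivative, coeff_derivative,
      hc 3 (by omega)]
    push_cast
    ring

/-- the phase as a polynomial -/
theorem hq_poly {I : Ideal R} {N : ℕ} (hI : I ^ N = ⊥) (h2 : IsUnit (2 : R)) (i j : R) {a : R}
    (ha : a ∈ I) {Y : R} (hY : IsUnit Y) :
    ∃ p : R[X], (∀ τ ∈ I, hq i j a (Y + τ) = p.eval τ) ∧
      IsUnit ((derivative p).eval 0) ∧ IsUnit ((derivative (derivative p)).eval 0) ∧
      IsUnit ((derivative (derivative p)).eval 0 ^ 2 -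
      (derivative (derivative (derivative p))).eval 0 * (derivative p).eval 0) := by
  obtain ⟨G, hG, g1, g2, g3⟩ := inv_poly hI hY
  obtain ⟨V, hV⟩ : ∃ V, V = Ring.inverse Y := ⟨_, rfl⟩
  have hYV : Y * V = 1 := by rw [hV]; exact Ring.mul_inverse_cancel Y hY
  have hVu : IsUnit V := IsUnit.of_mul_eq_one Y (by rw [mul_comm]; exact hYV)
  rw [← hV] at g1 g2 g3
  obtain ⟨Q, hQ⟩ : ∃ Q : R[X], Q = C (2 * i * a) * G ^ 3 + C (2 * j * a ^ 3) * G ^ 5 := ⟨_, rfl⟩
  obtain ⟨p, hp⟩ : ∃ p : R[X], p = C 2 * G + C a * Q := ⟨_, rfl⟩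
  have d1 : (derivative p).eval 0 = -(2 * V ^ 2) + a * (derivative Q).eval 0 := by
    rw [hp, derivative_add, derivative_C_mul, derivative_C_mul, eval_add, eval_mul, eval_mul,
      eval_C, eval_C, g1]
    ring
  have d2 : (derivative (derivative p)).eval 0 =
      4 * V ^ 3 + a * (derivative (derivative Q)).eval 0 := by
    rw [hp, derivative_add, derivative_C_mul, derivative_C_mul, derivative_add,
      derivative_C_mul, derivative_C_mul, eval_add, eval_mul, eval_mul, eval_C, eval_C, g2]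
    ring
  have d3 : (derivative (derivative (derivative p))).eval 0 =
      -(12 * V ^ 4) + a * (derivative (derivative (derivative Q))).eval 0 := by
    rw [hp, derivative_add, derivative_C_mul, derivative_C_mul, derivative_add,
      derivative_C_mul, derivative_C_mul, derivative_add,
      derivative_C_mul, derivative_C_mul, eval_add, eval_mul, eval_mul, eval_C, eval_C, g3]
    ring
  have u4 : IsUnit (4 : R) := by
    have : (4 : R) = 2 * 2 := by norm_num
    rw [this]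
    exact h2.mul h2
  have u8 : IsUnit (8 : R) := by
    have : (8 : R) = 4 * 2 := by norm_num
    rw [this]
    exact u4.mul h2
  refine ⟨p, fun τ hτ => ?_, ?_, ?_, ?_⟩
  · unfold hq
    rw [hG τ hτ, hp, hQ, eval_add, eval_mul, eval_mul, eval_add, eval_mul, eval_mul, eval_pow,
      eval_pow, eval_C, eval_C, eval_C, eval_C]
    ring
  · rw [d1]
    refine unit_mod hI (u := -(2 * V ^ 2)) (h2.mul (hVu.pow 2)).neg ?_
    rw [add_sub_cancel_left]
    exact I.mul_mem_right _ ha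
  · rw [d2]
    refine unit_mod hI (u := 4 * V ^ 3) (u4.mul (hVu.pow 3)) ?_
    rw [add_sub_cancel_left]
    exact I.mul_mem_right _ ha
  · rw [d1, d2, d3]
    refine unit_mod hI (u := -(8 * V ^ 6)) (u8.mul (hVu.pow 6)).neg ?_
    obtain ⟨A, hA⟩ : ∃ A, A = (derivative Q).eval 0 := ⟨_, rfl⟩
    obtain ⟨B, hB⟩ : ∃ B, B = (derivative (derivative Q)).eval 0 := ⟨_, rfl⟩
    obtain ⟨D, hD⟩ : ∃ D, D = (derivative (derivative (derivative Q))).eval 0 := ⟨_, rfl⟩
    rw [← hA, ← hB, ← hD]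
    have e : (4 * V ^ 3 + a * B) ^ 2 - (-(12 * V ^ 4) + a * D) * (-(2 * V ^ 2) + a * A) -
        -(8 * V ^ 6) = (8 * V ^ 3 * B + a * B ^ 2 + 12 * V ^ 4 * A + 2 * V ^ 2 * D -
          a * D * A) * a := by ring
    rw [e]
    exact I.mul_mem_left _ ha

variable [Fintype R]

open scoped Classical in
/-- the correlation sum for the class of `Y` modulo `I` -/
noncomputable def CR (θ : R → ℂ) (I : Ideal R) (i j a Y γ γ' y : R) : ℂ :=
  ∑ τ : R, if τ ∈ I then θ (γ * hq i j a (Y + τ + y) - γ' * hq i j a (Y + τ)) else 0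

/-- (FC) the correlation sums -/
theorem pf_FC {θ : R → ℂ} (hθ : ND θ) {I : Ideal R} {N : ℕ} (hI : I ^ N = ⊥)
    (h2 : IsUnit (2 : R)) (i j : R) {a Y γ : R} (γ' : R) {y : R} (ha : a ∈ I) (hY : IsUnit Y)
    (hγ : IsUnit γ) (hy : y ∈ I) :
    (y = 0 → CR θ I i j a Y γ γ' y ≠ 0 → ∀ t ∈ I, (γ - γ') * t = 0) ∧
    (CR θ I i j a Y γ γ' y ≠ 0 → ∃ v n : R, (∀ t ∈ I, n * t = 0) ∧ y = (γ - γ') * v + n) ∧
    ‖CR θ I i j a Y γ γ' y‖ ^ 2 ≤
      (Fintype.card R : ℝ) * ({s : R | s * (γ - γ') = 0}.ncard : ℝ) := by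
  obtain ⟨p, hp, u1, u2, u3⟩ := hq_poly hI h2 i j ha hY
  have e : CR θ I i j a Y γ γ' y = CS θ I p (γ - γ') γ y := by
    unfold CR CS
    refine Finset.sum_congr rfl fun τ _ => ?_
    by_cases hτ : τ ∈ I
    · rw [if_pos hτ, if_pos hτ, hp τ hτ]
      have h3 : Y + τ + y = Y + (τ + y) := by ring
      rw [h3, hp _ (I.add_mem hτ hy)]
      congr 1
      ring
    · rw [if_neg hτ, if_neg hτ]
  rw [e]
  refine ⟨fun h0 h => ?_, fun h => ?_, CS_size hθ hI p _ γ hy (hγ.mul u2) u3⟩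
  · rw [h0] at h
    exact CS_zero hθ hI p u1 _ γ h
  · obtain ⟨v, n, h3, h4, -⟩ := CS_supp hθ hI p (γ - γ') γ hy (hγ.mul u2) h
    exact ⟨v, n, h3, h4⟩

end Pool.Agent.H29.HT
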