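import Pool.Agent.H31.SX.TargetsR
import Pool.Agent.H86.SWX.RA

/-!
# Correlation sums in finite rings
-/

set_option autoImplicit false

open Finset Complex Polynomial

namespace Pool.Agent.H29.HT

open Pool.Agent.H31.SX
open Pool.Agent.H29.TC (AC MC)

variable {R : Type} [CommRing R]

/-! ### Divided differences of polynomials -/

/-- the first divided difference -/
theorem dd (s : R) (p : R[X]) : ∃ q q' : R[X], p.comp (X + C s) = p + C s * q ∧
    q = derivative p + C s * q' := by
  induction p using Polynomial.induction_on' with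
  | add p₁ p₂ h₁ h₂ =>
    obtain ⟨q₁, q₁', e₁, f₁⟩ := h₁
    obtain ⟨q₂, q₂', e₂, f₂⟩ := h₂
    refine ⟨q₁ + q₂, q₁' + q₂', ?_, ?_⟩
    · rw [add_comp, e₁, e₂]
      ring
    · rw [derivative_add, f₁, f₂]
      ring
  | monomial n a =>
    have h : ∃ q q' : R[X], (X ^ n : R[X]).comp (X + C s) = X ^ n + C s * q ∧
        q = derivative (X ^ n : R[X]) + C s * q' := by
      induction n with
      | zero => exact ⟨0, 0, by simp, by simp⟩
      | succ n ih =>
        obtain ⟨q, q', e, f⟩ := ih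
        refine ⟨q * X + X ^ n + C s * q, q' * X + q, ?_, ?_⟩
        · rw [pow_succ, mul_comp, e, X_comp]
          ring
        · rw [pow_succ, derivative_mul, derivative_X, f]
          ring
    obtain ⟨q, q', e, f⟩ := h
    refine ⟨C a * q, C a * q', ?_, ?_⟩
    · rw [← C_mul_X_pow_eq_monomial, mul_comp, C_comp, e]
      ring
    · rw [← C_mul_X_pow_eq_monomial, derivative_C_mul, f]
      ring

/-- the value at an element of `I` -/
theorem ev_mem {I : Ideal R} (p : R[X]) {τ : R} (hτ : τ ∈ I) : p.eval τ - p.eval 0 ∈ I := by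
  obtain ⟨c, hc⟩ := Polynomial.sub_dvd_eval_sub τ 0 p
  rw [hc, sub_zero]
  exact I.mul_mem_right _ hτ

theorem ev_add (s : R) {p q : R[X]} (h : p.comp (X + C s) = p + C s * q) (τ : R) :
    p.eval (τ + s) = p.eval τ + s * q.eval τ := by
  have := congrArg (fun f : R[X] => f.eval τ) h
  simpa using this

theorem unit_mod {I : Ideal R} {N : ℕ} (hI : I ^ N = ⊥) {u v : R} (hu : IsUnit u)
    (h : v - u ∈ I) : IsUnit v := by
  have hnil : IsNilpotent (v - u) := by
    refine ⟨N, ?_⟩
    have h1 : (v - u) ^ N ∈ I ^ N := Ideal.pow_mem_pow h N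
    rw [hI] at h1
    exact h1
  have h2 : v = u + (v - u) := by ring
  rw [h2]
  exact Pool.Agent.H29.TC.unit_add_nil hu hnil

/-- a polynomial with unit derivative permutes `I` -/
theorem inj_of_unit {I : Ideal R} {N : ℕ} (hI : I ^ N = ⊥) (p : R[X])
    (hp : IsUnit ((derivative p).eval 0)) {σ τ : R} (hσ : σ ∈ I) (hτ : τ ∈ I)
    (h : p.eval σ = p.eval τ) : σ = τ := by
  obtain ⟨q, q', e, f⟩ := dd (σ - τ) p
  have h1 := ev_add (σ - τ) e τ
  rw [add_sub_cancel, h] at h1
  have h2 : (σ - τ) * q.eval τ = 0 := by linear_combination -h1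
  have hs : σ - τ ∈ I := I.sub_mem hσ hτ
  have h3 : IsUnit (q.eval τ) := by
    refine unit_mod hI hp ?_
    rw [f, eval_add, eval_mul, eval_C]
    have h4 := ev_mem (derivative p) hτ
    have h5 : eval τ (derivative p) + (σ - τ) * eval τ q' - eval 0 (derivative p) =
        (eval τ (derivative p) - eval 0 (derivative p)) + (σ - τ) * eval τ q' := by ring
    rw [h5]
    exact I.add_mem h4 (I.mul_mem_right _ hs)
  exact sub_eq_zero.1 (h3.mul_left_eq_zero.1 h2)

variable [Fintype R]

open scoped Classical in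
/-- the sum over a permuted ideal -/
theorem sum_perm {θ : R → ℂ} (hθ : ND θ) {I : Ideal R} {N : ℕ} (hI : I ^ N = ⊥) (p : R[X])
    (hp : IsUnit ((derivative p).eval 0)) (z : R) (hz : ¬ ∀ t ∈ I, z * t = 0) :
    (∑ τ : R, if τ ∈ I then θ (z * p.eval τ) else 0) = 0 := by
  have hRA := (Pool.Agent.H86.SWX.pf_RA R θ hθ I).2.2.2 z
  rw [if_neg hz] at hRA
  have h1 : ∀ τ ∈ I, p.eval τ - p.eval 0 ∈ I := fun τ hτ => ev_mem p hτ
  have hfin : Set.Finite (I : Set R) := Set.toFinite _
  obtain ⟨S, hS⟩ : ∃ S : Finset R, ∀ x, x ∈ S ↔ x ∈ I := ⟨hfin.toFinset, fun x => by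
    rw [Set.Finite.mem_toFinset]
    exact SetLike.mem_coe⟩
  have hbij : ∑ τ ∈ S, θ (z * p.eval τ) = ∑ τ ∈ S, θ (z * p.eval 0) * θ (z * τ) := by
    refine Finset.sum_bij (fun τ _ => p.eval τ - p.eval 0) ?_ ?_ ?_ ?_
    · intro τ hτ
      exact (hS _).2 (h1 τ ((hS τ).1 hτ))
    · intro σ hσ τ hτ h
      exact inj_of_unit hI p hp ((hS σ).1 hσ) ((hS τ).1 hτ) (sub_left_injective h)
    · intro y hy
      have hsurj : Set.SurjOn (fun τ => p.eval τ - p.eval 0) (S : Set R) (S : Set R) := by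
        have hmaps : Set.MapsTo (fun τ => p.eval τ - p.eval 0) (S : Set R) (S : Set R) := by
          intro τ hτ
          exact (hS _).2 (h1 τ ((hS τ).1 hτ))
        have hinj : Set.InjOn (fun τ => p.eval τ - p.eval 0) (S : Set R) := by
          intro σ hσ τ hτ h
          exact inj_of_unit hI p hp ((hS σ).1 hσ) ((hS τ).1 hτ) (sub_left_injective h)
        exact Finset.surjOn_of_injOn_of_card_le _ hmaps hinj le_rfl
      obtain ⟨τ, hτ, h⟩ := hsurj hy
      exact ⟨τ, hτ, h⟩
    · intro τ _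
      rw [← hθ.ac.add]
      congr 1
      ring
  have h2 : ∀ f : R → ℂ, (∑ τ : R, if τ ∈ I then f τ else 0) = ∑ τ ∈ S, f τ := by
    intro f
    rw [← Finset.sum_filter]
    refine Finset.sum_congr ?_ fun _ _ => rfl
    ext x
    simp [hS]
  rw [h2 (fun τ => θ (z * p.eval τ)), hbij, ← Finset.mul_sum, ← h2 (fun τ => θ (z * τ)), hRA,
    mul_zero]

/-! ### The correlation sum -/

open scoped Classical in
/-- the correlation sum -/
noncomputable def CS (θ : R → ℂ) (I : Ideal R) (p : R[X]) (x γ y : R) : ℂ :=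
  ∑ τ : R, if τ ∈ I then θ (x * p.eval τ + γ * (p.eval (τ + y) - p.eval τ)) else 0

/-- (1) the diagonal correlation -/
theorem CS_zero {θ : R → ℂ} (hθ : ND θ) {I : Ideal R} {N : ℕ} (hI : I ^ N = ⊥) (p : R[X])
    (hc1 : IsUnit ((derivative p).eval 0)) (x γ : R) (h : CS θ I p x γ 0 ≠ 0) :
    ∀ t ∈ I, x * t = 0 := by
  by_contra hx
  apply h
  unfold CS
  simp only [add_zero, sub_self, mul_zero]
  exact sum_perm hθ hI p hc1 x hx

omit [Fintype R] in
/-- the two divided differences of the phase -/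
private theorem diff2 {I : Ideal R} (p : R[X]) {s y : R} (hs : s ∈ I) (hy : y ∈ I) :
    ∃ q r : R[X], (∀ x γ τ : R,
      (x * p.eval (τ + s) + γ * (p.eval (τ + s + y) - p.eval (τ + s))) -
        (x * p.eval τ + γ * (p.eval (τ + y) - p.eval τ)) =
        s * (x * q.eval τ + γ * y * r.eval τ)) ∧
      (∀ τ ∈ I, q.eval τ - (derivative p).eval 0 ∈ I) ∧
      (∀ τ ∈ I, r.eval τ - (derivative (derivative p)).eval 0 ∈ I) ∧
      (derivative q).eval 0 - (derivative (derivative p)).eval 0 ∈ I ∧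
      (derivative r).eval 0 - (derivative (derivative (derivative p))).eval 0 ∈ I := by
  obtain ⟨w, w', ew, fw⟩ := dd y p
  obtain ⟨q, q', eq, fq⟩ := dd s p
  obtain ⟨r, r', er, fr⟩ := dd s w
  refine ⟨q, r, fun x γ τ => ?_, fun τ hτ => ?_, fun τ hτ => ?_, ?_, ?_⟩
  · have h1 := ev_add y ew τ
    have h2 := ev_add y ew (τ + s)
    have h3 := ev_add s eq τ
    have h4 := ev_add s er τ
    rw [h1, h2, h4, h3]
    ring
  · rw [fq, eval_add, eval_mul, eval_C]
    have h5 : eval τ (derivative p) + s * eval τ q' - eval 0 (derivative p) =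
        (eval τ (derivative p) - eval 0 (derivative p)) + s * eval τ q' := by ring
    rw [h5]
    exact I.add_mem (ev_mem _ hτ) (I.mul_mem_right _ hs)
  · rw [fr, fw, derivative_add, derivative_C_mul, eval_add, eval_add, eval_mul, eval_mul,
      eval_C, eval_C]
    have h5 : eval τ (derivative (derivative p)) + y * eval τ (derivative w') + s * eval τ r' -
        eval 0 (derivative (derivative p)) =
        (eval τ (derivative (derivative p)) - eval 0 (derivative (derivative p))) +
          (y * eval τ (derivative w') + s * eval τ r') := by ring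
    rw [h5]
    exact I.add_mem (ev_mem _ hτ) (I.add_mem (I.mul_mem_right _ hy) (I.mul_mem_right _ hs))
  · rw [fq, derivative_add, derivative_C_mul, eval_add, eval_mul, eval_C, add_sub_cancel_left]
    exact I.mul_mem_right _ hs
  · rw [fr, fw, derivative_add, derivative_add, derivative_add, derivative_C_mul,
      derivative_C_mul, derivative_C_mul, eval_add, eval_add, eval_mul, eval_mul, eval_C, eval_C]
    have h5 : eval 0 (derivative (derivative (derivative p))) +
        y * eval 0 (derivative (derivative w')) + s * eval 0 (derivative r') -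
        eval 0 (derivative (derivative (derivative p))) =
        y * eval 0 (derivative (derivative w')) + s * eval 0 (derivative r') := by ring
    rw [h5]
    exact I.add_mem (I.mul_mem_right _ hy) (I.mul_mem_right _ hs)

open scoped Classical in
private theorem shift {I : Ideal R} {s : R} (hs : s ∈ I) (f : R → ℂ) :
    (∑ τ : R, if τ ∈ I then f τ else 0) = ∑ τ : R, if τ ∈ I then f (τ + s) else 0 := by
  rw [← Equiv.sum_comp (Equiv.addRight s) (fun τ => if τ ∈ I then f τ else 0)]
  refine Finset.sum_congr rfl fun τ _ => ?_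
  have h : (Equiv.addRight s) τ ∈ I ↔ τ ∈ I := by
    rw [Equiv.coe_addRight]
    exact ⟨fun h => by have := I.sub_mem h hs; rwa [add_sub_cancel_right] at this,
      fun h => I.add_mem h hs⟩
  by_cases hτ : τ ∈ I
  · rw [if_pos hτ, if_pos (h.2 hτ), Equiv.coe_addRight]
  · rw [if_neg hτ, if_neg (fun h' => hτ (h.1 h'))]

/-- (2) the support of the correlation -/
theorem CS_supp {θ : R → ℂ} (hθ : ND θ) {I : Ideal R} {N : ℕ} (hI : I ^ N = ⊥) (p : R[X])
    (x γ : R) {y : R} (hy : y ∈ I)
    (hc2 : IsUnit (γ * (derivative (derivative p)).eval 0)) (h : CS θ I p x γ y ≠ 0) :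
    ∃ v n : R, (∀ t ∈ I, n * t = 0) ∧ y = x * v + n ∧
      γ * (derivative (derivative p)).eval 0 * v + (derivative p).eval 0 ∈ I := by
  obtain ⟨c1, hc1e⟩ : ∃ c, c = (derivative p).eval 0 := ⟨_, rfl⟩
  obtain ⟨c2, hc2e⟩ : ∃ c, c = (derivative (derivative p)).eval 0 := ⟨_, rfl⟩
  rw [← hc2e] at hc2 ⊢
  rw [← hc1e]
  -- the condition from the shifts
  have key : ∀ s ∈ I, (∀ t ∈ I, s * x * t = 0) → (∀ t ∈ I, s * y * t = 0) →
      θ (s * (x * c1 + γ * y * c2)) = 1 := by
    intro s hs hx hy'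
    obtain ⟨q, r, e, hq, hr, -, -⟩ := diff2 p hs hy
    have h1 : CS θ I p x γ y = θ (s * (x * c1 + γ * y * c2)) * CS θ I p x γ y := by
      conv_lhs => unfold CS
      rw [shift hs]
      unfold CS
      rw [Finset.mul_sum]
      refine Finset.sum_congr rfl fun τ _ => ?_
      by_cases hτ : τ ∈ I
      · rw [if_pos hτ, if_pos hτ, ← hθ.ac.add]
        congr 1
        have h2 := e x γ τ
        have h3 := hx _ (hq τ hτ)
        have h4 := hy' _ (hr τ hτ)
        rw [← hc1e] at h3
        rw [← hc2e] at h4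
        linear_combination h2 + h3 + γ * h4
      · rw [if_neg hτ, if_neg hτ, mul_zero]
    have h2 : (θ (s * (x * c1 + γ * y * c2)) - 1) * CS θ I p x γ y = 0 := by
      linear_combination -h1
    rcases mul_eq_zero.1 h2 with h3 | h3
    · linear_combination h3
    · exact absurd h3 h
  -- the ideal
  obtain ⟨-, dI, -, -⟩ := Pool.Agent.H86.SWX.pf_RA R θ hθ I
  let An : Ideal R :=
    { carrier := {n | ∀ t ∈ I, n * t = 0}
      add_mem' := fun {a b} ha hb t ht => by rw [add_mul, ha t ht, hb t ht, add_zero]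
      zero_mem' := fun t _ => zero_mul t
      smul_mem' := fun c a ha t ht => by rw [smul_eq_mul, mul_assoc, ha t ht, mul_zero] }
  have hAn : ∀ n, n ∈ An ↔ ∀ t ∈ I, n * t = 0 := fun n => Iff.rfl
  let W : Ideal R := Ideal.span {x, y} * I ⊔ An
  obtain ⟨-, dW, -, -⟩ := Pool.Agent.H86.SWX.pf_RA R θ hθ W
  have hmem : x * c1 + γ * y * c2 ∈ W := by
    refine dW _ fun z hz => ?_
    have hzI : z ∈ I := by
      refine dI z fun n hn => ?_
      exact hz n (Ideal.mem_sup_right ((hAn n).2 hn))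
    have hxy : ∀ w ∈ ({x, y} : Set R), ∀ t ∈ I, z * w * t = 0 := by
      intro w hw t ht
      rw [mul_assoc]
      exact hz _ (Ideal.mem_sup_left (Ideal.mul_mem_mul (Ideal.subset_span hw) ht))
    refine hθ.nd _ fun r => ?_
    have hrz : r * z ∈ I := I.mul_mem_left _ hzI
    have h5 := key (r * z) hrz
      (fun t ht => by
        have := hxy x (by simp) t ht
        linear_combination r * this)
      (fun t ht => by
        have := hxy y (by simp) t ht
        linear_combination r * this)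
    rw [← h5]
    congr 1
    ring
  obtain ⟨a, ha, n, hn, hsum⟩ := Submodule.mem_sup.1 hmem
  -- elements of `(x, y) I`
  have hform : ∀ a ∈ Ideal.span {x, y} * I, ∃ i₁ ∈ I, ∃ i₂ ∈ I, a = x * i₁ + y * i₂ := by
    intro a ha
    refine Submodule.mul_induction_on ha ?_ ?_
    · intro m hm t ht
      obtain ⟨b, c, hbc⟩ := Ideal.mem_span_pair.1 hm
      exact ⟨b * t, I.mul_mem_left _ ht, c * t, I.mul_mem_left _ ht, by rw [← hbc]; ring⟩
    · rintro _ _ ⟨i₁, h1, i₂, h2, rfl⟩ ⟨j₁, g1, j₂, g2, rfl⟩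
      exact ⟨i₁ + j₁, I.add_mem h1 g1, i₂ + j₂, I.add_mem h2 g2, by ring⟩
  obtain ⟨i₁, h1, i₂, h2, rfl⟩ := hform a ha
  have hu : IsUnit (γ * c2 - i₂) := by
    refine unit_mod hI hc2 ?_
    have : γ * c2 - i₂ - γ * c2 = -i₂ := by ring
    rw [this]
    exact I.neg_mem h2
  obtain ⟨u, hu'⟩ := hu
  have hinv : (γ * c2 - i₂) * (↑u⁻¹ : R) = 1 := by
    rw [← hu']
    exact Units.mul_inv u
  refine ⟨(i₁ - c1) * (↑u⁻¹ : R), n * (↑u⁻¹ : R), fun t ht => ?_, ?_, ?_⟩
  · have := (hAn n).1 hn t ht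
    linear_combination (↑u⁻¹ : R) * this
  · linear_combination (-y) * hinv - (↑u⁻¹ : R) * hsum
  · have h3 : γ * c2 * ((i₁ - c1) * (↑u⁻¹ : R)) + c1 =
        i₁ + i₂ * ((i₁ - c1) * (↑u⁻¹ : R)) := by
      linear_combination (i₁ - c1) * hinv
    rw [h3]
    exact I.add_mem h1 (I.mul_mem_right _ h2)

open scoped Classical in
/-- (3) the size of the correlation -/
theorem CS_size {θ : R → ℂ} (hθ : ND θ) {I : Ideal R} {N : ℕ} (hI : I ^ N = ⊥) (p : R[X])
    (x γ : R) {y : R} (hy : y ∈ I)
    (hc2 : IsUnit (γ * (derivative (derivative p)).eval 0))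
    (hdis : IsUnit ((derivative (derivative p)).eval 0 ^ 2 -
      (derivative (derivative (derivative p))).eval 0 * (derivative p).eval 0)) :
    ‖CS θ I p x γ y‖ ^ 2 ≤ (Fintype.card R : ℝ) * ({s : R | s * x = 0}.ncard : ℝ) := by
  by_cases h0 : CS θ I p x γ y = 0
  · rw [h0, norm_zero, zero_pow two_ne_zero]
    positivity
  obtain ⟨v, n, hn, hyv, hv⟩ := CS_supp hθ hI p x γ hy hc2 h0
  obtain ⟨c1, hc1e⟩ : ∃ c, c = (derivative p).eval 0 := ⟨_, rfl⟩
  obtain ⟨c2, hc2e⟩ : ∃ c, c = (derivative (derivative p)).eval 0 := ⟨_, rfl⟩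
  obtain ⟨c3, hc3e⟩ : ∃ c, c = (derivative (derivative (derivative p))).eval 0 := ⟨_, rfl⟩
  rw [← hc2e] at hc2 hv hdis
  rw [← hc1e] at hv hdis
  rw [← hc3e] at hdis
  obtain ⟨F, hF⟩ : ∃ F : R → R, F = fun τ => x * p.eval τ + γ * (p.eval (τ + y) - p.eval τ) :=
    ⟨_, rfl⟩
  have hCS : CS θ I p x γ y = ∑ τ : R, if τ ∈ I then θ (F τ) else 0 := by
    unfold CS
    rw [hF]
  -- the inner sums
  have hin : ∀ s ∈ I, (¬ ∀ t ∈ I, s * x * t = 0) →
      (∑ τ : R, if τ ∈ I then θ (F (τ + s) - F τ) else 0) = 0 := by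
    intro s hs hsx
    obtain ⟨q, r, e, hq, hr, hq', hr'⟩ := diff2 p hs hy
    rw [← hc1e] at hq
    rw [← hc2e] at hr hq'
    rw [← hc3e] at hr'
    have hu : IsUnit ((derivative (q + C (γ * v) * r)).eval 0) := by
      rw [derivative_add, derivative_C_mul, eval_add, eval_mul, eval_C]
      have h1 : IsUnit (c2 + γ * v * c3) := by
        have h2 : IsUnit (c2 * (c2 + γ * v * c3)) := by
          refine unit_mod hI hdis ?_
          have h3 : c2 * (c2 + γ * v * c3) - (c2 ^ 2 - c3 * c1) = c3 * (γ * c2 * v + c1) := by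
            ring
          rw [h3]
          exact I.mul_mem_left _ hv
        exact isUnit_of_mul_isUnit_right h2
      refine unit_mod hI h1 ?_
      have h4 : eval 0 (derivative q) + γ * v * eval 0 (derivative r) - (c2 + γ * v * c3) =
          (eval 0 (derivative q) - c2) + γ * v * (eval 0 (derivative r) - c3) := by ring
      rw [h4]
      exact I.add_mem hq' (I.mul_mem_left _ hr')
    have h5 := sum_perm hθ hI (q + C (γ * v) * r) hu (s * x) hsx
    refine Eq.trans ?_ h5
    refine Finset.sum_congr rfl fun τ _ => ?_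
    by_cases hτ : τ ∈ I
    · rw [if_pos hτ, if_pos hτ]
      congr 1
      have h6 := e x γ τ
      have h7 := hn s hs
      rw [hF]
      simp only
      rw [h6, eval_add, eval_mul, eval_C]
      linear_combination (s * γ * eval τ r) * hyv + (γ * eval τ r) * h7
    · rw [if_neg hτ, if_neg hτ]
  -- the square
  have hconj : ∀ z : R, (starRingEnd ℂ) (θ z) = θ (-z) := by
    intro z
    have h1 : θ (-z) * θ z = 1 := by
      rw [← hθ.ac.add, neg_add_cancel]
      have h2 := hθ.ac.add 0 0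
      rw [add_zero] at h2
      have h3 := hθ.ac.norm 0
      have h4 : θ 0 ≠ 0 := by
        intro h
        rw [h, norm_zero] at h3
        exact zero_ne_one h3
      exact mul_left_cancel₀ h4 (by rw [mul_one]; exact h2.symm)
    have h5 : θ z * (starRingEnd ℂ) (θ z) = 1 := by
      rw [Complex.mul_conj, Complex.normSq_eq_norm_sq, hθ.ac.norm]
      norm_num
    linear_combination θ (-z) * h5 - (starRingEnd ℂ) (θ z) * h1
  have hsq : CS θ I p x γ y * (starRingEnd ℂ) (CS θ I p x γ y) =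
      ∑ s : R, if s ∈ I then ∑ τ : R, if τ ∈ I then θ (F (τ + s) - F τ) else 0 else 0 := by
    have h1 : CS θ I p x γ y * (starRingEnd ℂ) (CS θ I p x γ y) =
        ∑ τ : R, if τ ∈ I then ∑ s : R, if s ∈ I then θ (F (s + τ) - F τ) else 0 else 0 := by
      conv_lhs => rw [hCS]
      rw [map_sum, Finset.mul_sum]
      refine Finset.sum_congr rfl fun τ _ => ?_
      by_cases hτ : τ ∈ I
      · rw [if_pos hτ, if_pos hτ, shift hτ, Finset.sum_mul]
        refine Finset.sum_congr rfl fun s _ => ?_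
        by_cases hs : s ∈ I
        · rw [if_pos hs, if_pos hs, hconj, ← hθ.ac.add, sub_eq_add_neg]
        · rw [if_neg hs, if_neg hs, zero_mul]
      · rw [if_neg hτ, if_neg hτ, map_zero, mul_zero]
    rw [h1]
    have h2 : ∀ τ : R, (if τ ∈ I then ∑ s : R, if s ∈ I then θ (F (s + τ) - F τ) else 0 else 0) =
        ∑ s : R, if τ ∈ I then (if s ∈ I then θ (F (s + τ) - F τ) else 0) else 0 := by
      intro τ
      by_cases hτ : τ ∈ I
      · rw [if_pos hτ]
        refine Finset.sum_congr rfl fun s _ => ?_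
        rw [if_pos hτ]
      · rw [if_neg hτ]
        symm
        refine Finset.sum_eq_zero fun s _ => ?_
        rw [if_neg hτ]
    rw [Finset.sum_congr rfl fun τ _ => h2 τ, Finset.sum_comm]
    refine Finset.sum_congr rfl fun s _ => ?_
    by_cases hs : s ∈ I
    · rw [if_pos hs]
      refine Finset.sum_congr rfl fun τ _ => ?_
      by_cases hτ : τ ∈ I
      · rw [if_pos hτ, if_pos hs, if_pos hτ, add_comm s τ]
      · rw [if_neg hτ, if_neg hτ]
    · rw [if_neg hs]
      refine Finset.sum_eq_zero fun τ _ => ?_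
      by_cases hτ : τ ∈ I
      · rw [if_pos hτ, if_neg hs]
      · rw [if_neg hτ]
  -- the counting
  obtain ⟨cI, hcI⟩ : ∃ c : ℝ, c = (Nat.card I : ℝ) := ⟨_, rfl⟩
  have hcI0 : 0 ≤ cI := by rw [hcI]; positivity
  have hcount : ∀ s : R, ‖∑ τ : R, if τ ∈ I then θ (F (τ + s) - F τ) else 0‖ ≤ cI := by
    intro s
    refine (norm_sum_le _ _).trans ?_
    have h1 : ∀ τ : R, ‖if τ ∈ I then θ (F (τ + s) - F τ) else 0‖ =
        if τ ∈ I then (1 : ℝ) else 0 := by
      intro τ
      by_cases hτ : τ ∈ I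
      · rw [if_pos hτ, if_pos hτ, hθ.ac.norm]
      · rw [if_neg hτ, if_neg hτ, norm_zero]
    rw [Finset.sum_congr rfl fun τ _ => h1 τ, ← Finset.sum_filter, Finset.sum_const, nsmul_eq_mul,
      mul_one, hcI]
    have h2 : Nat.card I = (Finset.univ.filter fun τ : R => τ ∈ I).card := by
      rw [Nat.card_eq_fintype_card]
      exact Fintype.card_subtype _
    rw [h2]
  obtain ⟨T, hT⟩ : ∃ T : Finset R, ∀ s, s ∈ T ↔ s ∈ I ∧ ∀ t ∈ I, s * x * t = 0 :=
    ⟨Finset.univ.filter fun s => s ∈ I ∧ ∀ t ∈ I, s * x * t = 0, fun s => by simp⟩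
  have hnorm : ‖CS θ I p x γ y‖ ^ 2 ≤ cI * (T.card : ℝ) := by
    have h1 : ‖CS θ I p x γ y‖ ^ 2 = ‖CS θ I p x γ y * (starRingEnd ℂ) (CS θ I p x γ y)‖ := by
      rw [norm_mul, RCLike.norm_conj, sq]
    rw [h1, hsq]
    refine (norm_sum_le _ _).trans ?_
    have h2 : ∀ s : R, ‖if s ∈ I then ∑ τ : R, if τ ∈ I then θ (F (τ + s) - F τ) else 0 else 0‖ ≤
        if s ∈ T then cI else 0 := by
      intro s
      by_cases hs : s ∈ I
      · rw [if_pos hs]
        by_cases hsx : ∀ t ∈ I, s * x * t = 0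
        · rw [if_pos ((hT s).2 ⟨hs, hsx⟩)]
          exact hcount s
        · rw [if_neg (fun h => hsx ((hT s).1 h).2), hin s hs hsx, norm_zero]
      · rw [if_neg hs, if_neg (fun h => hs ((hT s).1 h).1), norm_zero]
    refine (Finset.sum_le_sum fun s _ => h2 s).trans ?_
    rw [Finset.sum_ite_mem, Finset.univ_inter, Finset.sum_const, nsmul_eq_mul]
    exact le_of_eq (mul_comm _ _)
  -- annihilators
  obtain ⟨-, -, hcard, -⟩ := Pool.Agent.H86.SWX.pf_RA R θ hθ I
  rw [← hcI] at hcard
  have hTle : (T.card : ℝ) ≤ ({s : R | s * x = 0}.ncard : ℝ) *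
      ({y : R | ∀ t ∈ I, y * t = 0}.ncard : ℝ) := by
    obtain ⟨A, hA⟩ : ∃ A : Finset R, ∀ s, s ∈ A ↔ s * x = 0 :=
      ⟨Finset.univ.filter fun s => s * x = 0, fun s => by simp⟩
    obtain ⟨B, hB⟩ : ∃ B : Finset R, ∀ s, s ∈ B ↔ ∀ t ∈ I, s * t = 0 :=
      ⟨Finset.univ.filter fun s => ∀ t ∈ I, s * t = 0, fun s => by simp⟩
    have hAc : {s : R | s * x = 0}.ncard = A.card := by
      have : {s : R | s * x = 0} = (A : Set R) := by
        ext s
        simp [hA]
      rw [this, Set.ncard_coe_finset]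
    have hBc : {y : R | ∀ t ∈ I, y * t = 0}.ncard = B.card := by
      have : {y : R | ∀ t ∈ I, y * t = 0} = (B : Set R) := by
        ext s
        simp [hB]
      rw [this, Set.ncard_coe_finset]
    rw [hAc, hBc]
    have h1 : T.card ≤ A.card * B.card := by
      refine Finset.card_le_mul_card_image_of_maps_to (f := fun s => s * x) (t := B) ?_ A.card ?_
      · intro s hs
        exact (hB _).2 ((hT s).1 hs).2
      · intro b _
        by_cases hne : (T.filter fun s => s * x = b).Nonempty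
        · obtain ⟨s₀, hs₀⟩ := hne
          rw [Finset.mem_filter] at hs₀
          refine Finset.card_le_card_of_injOn (fun s => s - s₀) ?_ ?_
          · intro s hs
            have h2 := Finset.mem_filter.1 hs
            exact (hA _).2 (by rw [sub_mul, h2.2, hs₀.2, sub_self])
          · intro a _ b _ h
            exact sub_left_injective h
        · rw [Finset.not_nonempty_iff_eq_empty.1 hne, Finset.card_empty]
          exact Nat.zero_le _
    exact_mod_cast h1
  calc ‖CS θ I p x γ y‖ ^ 2 ≤ cI * (T.card : ℝ) := hnorm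
    _ ≤ cI * (({s : R | s * x = 0}.ncard : ℝ) *
      ({y : R | ∀ t ∈ I, y * t = 0}.ncard : ℝ)) := mul_le_mul_of_nonneg_left hTle hcI0
    _ = _ := by
      rw [← hcard]
      ring

end Pool.Agent.H29.HT
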