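import Pool.Agent.H29.HT.FC
import Pool.Agent.H95.SWX.RG

/-!
# The logarithm to the order five in a ring with `J ^ 6 = 0`
-/

set_option autoImplicit false

open Finset Complex

namespace Pool.Agent.H29.HT

open Pool.Agent.H31.SX
open Pool.Agent.H29.TC (AC MC)

variable {R : Type} [CommRing R]

/-- the logarithm of `1 + x` for `x ^ 6 = 0` (`h = 1 / 2`, `i = 1 / 3`, `j = 1 / 5`) -/
def lq (h i j x : R) : R := x - h * x ^ 2 + i * x ^ 3 - h ^ 2 * x ^ 4 + j * x ^ 5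

private theorem lq60 {h i j : R} (hh : 2 * h = 1) (hi : 3 * i = 1) (hj : 5 * j = 1) (x : R) :
    60 * lq h i j x = 60 * x - 30 * x ^ 2 + 20 * x ^ 3 - 15 * x ^ 4 + 12 * x ^ 5 := by
  unfold lq
  linear_combination (-30 * x ^ 2 - 15 * x ^ 4 * (2 * h + 1)) * hh + 20 * x ^ 3 * hi +
    12 * x ^ 5 * hj

private theorem u60 {h i j : R} (hh : 2 * h = 1) (hi : 3 * i = 1) (hj : 5 * j = 1) :
    IsUnit (60 : R) := by
  refine IsUnit.of_mul_eq_one (h ^ 2 * i * j) ?_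
  linear_combination (15 * i * j * (2 * h + 1)) * hh + 5 * j * hi + hj

private theorem pmem {J : Ideal R} (hJ : J ^ 6 = ⊥) {x : R} (hx : x ∈ J ^ 6) : x = 0 := by
  rw [hJ] at hx
  exact hx

private theorem pab {J : Ideal R} (hJ : J ^ 6 = ⊥) {x y : R} (hx : x ∈ J) (hy : y ∈ J) (a b : ℕ)
    (hab : a + b = 6) : x ^ a * y ^ b = 0 := by
  refine pmem hJ ?_
  rw [← hab, pow_add]
  exact Ideal.mul_mem_mul (Ideal.pow_mem_pow hx a) (Ideal.pow_mem_pow hy b)

theorem lq_mul {J : Ideal R} (hJ : J ^ 6 = ⊥) {h i j : R} (hh : 2 * h = 1) (hi : 3 * i = 1)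
    (hj : 5 * j = 1) {x y : R} (hx : x ∈ J) (hy : y ∈ J) :
    lq h i j (x + y + x * y) = lq h i j x + lq h i j y := by
  have z15 := pab hJ hx hy 1 5 rfl
  have z24 := pab hJ hx hy 2 4 rfl
  have z33 := pab hJ hx hy 3 3 rfl
  have z42 := pab hJ hx hy 4 2 rfl
  have z51 := pab hJ hx hy 5 1 rfl
  have e1 := lq60 hh hi hj (x + y + x * y)
  have e2 := lq60 hh hi hj x
  have e3 := lq60 hh hi hj y
  have h1 : 60 * lq h i j (x + y + x * y) = 60 * (lq h i j x + lq h i j y) := by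
    linear_combination e1 - e2 - e3 + 60 * z15 + (150 + 120 * y) * z24 +
      (200 + 300 * y + 120 * y ^ 2) * z33 + (150 + 300 * y + 225 * y ^ 2 + 60 * y ^ 3) * z42 +
      (60 + 120 * y + 120 * y ^ 2 + 60 * y ^ 3 + 12 * y ^ 4) * z51
  exact (u60 hh hi hj).mul_left_cancel h1

theorem lq_mem {J : Ideal R} (h i j : R) {x : R} (hx : x ∈ J) : lq h i j x ∈ J := by
  have h1 : lq h i j x = (1 - h * x + i * x ^ 2 - h ^ 2 * x ^ 3 + j * x ^ 4) * x := by
    unfold lq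
    ring
  rw [h1]
  exact J.mul_mem_left _ hx

private theorem u1 {J : Ideal R} (hJ : J ^ 6 = ⊥) {x : R} (hx : x ∈ J) : IsUnit (1 + x) := by
  refine unit_mod hJ isUnit_one ?_
  rw [add_sub_cancel_left]
  exact hx

theorem lq_inj {J : Ideal R} (hJ : J ^ 6 = ⊥) {h i j : R} (hh : 2 * h = 1) (hi : 3 * i = 1)
    (hj : 5 * j = 1) {x y : R} (hx : x ∈ J) (hy : y ∈ J) (hxy : lq h i j x = lq h i j y) :
    x = y := by
  have h1 := u1 hJ hy
  obtain ⟨u, hu⟩ := h1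
  have hinv : (1 + y) * (↑u⁻¹ : R) = 1 := by
    rw [← hu]
    exact Units.mul_inv u
  obtain ⟨z, hz⟩ : ∃ z, z = (x - y) * (↑u⁻¹ : R) := ⟨_, rfl⟩
  have hzJ : z ∈ J := by
    rw [hz]
    exact J.mul_mem_right _ (J.sub_mem hx hy)
  have h2 : x = y + z + y * z := by
    rw [hz]
    linear_combination (y - x) * hinv
  have h3 := lq_mul hJ hh hi hj hy hzJ
  rw [← h2, hxy] at h3
  have h4 : lq h i j z = 0 := by linear_combination -h3
  have h5 : (1 + (-h * z + i * z ^ 2 - h ^ 2 * z ^ 3 + j * z ^ 4)) * z = 0 := by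
    rw [← h4]
    unfold lq
    ring
  have h6 : IsUnit (1 + (-h * z + i * z ^ 2 - h ^ 2 * z ^ 3 + j * z ^ 4)) := by
    refine u1 hJ ?_
    have h7 : -h * z + i * z ^ 2 - h ^ 2 * z ^ 3 + j * z ^ 4 =
        (-h + i * z - h ^ 2 * z ^ 2 + j * z ^ 3) * z := by ring
    rw [h7]
    exact J.mul_mem_left _ hzJ
  have h7 : z = 0 := h6.mul_right_eq_zero.1 h5
  rw [h2, h7]
  ring

/-- (RG) the additive character of a multiplicative character. -/
theorem exists_char [Fintype R] {η : R → ℂ} {J : Ideal R} {h i j : R} (hη : MC η)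
    (hJ : J ^ 6 = ⊥) (hh : 2 * h = 1) (hi : 3 * i = 1) (hj : 5 * j = 1) :
    ∃ θ : R → ℂ, AC θ ∧ ∀ x ∈ J, η (1 + x) = θ (lq h i j x) := by
  classical
  -- the inverse of the logarithm
  have hinj : Function.Injective (fun x : J => (⟨lq h i j x, lq_mem h i j x.2⟩ : J)) := by
    intro x y hxy
    exact Subtype.ext (lq_inj hJ hh hi hj x.2 y.2 (congrArg Subtype.val hxy))
  have hsurj := Finite.surjective_of_injective hinj
  choose g hg using hsurj
  have hg' : ∀ y : J, lq h i j (g y : R) = y := fun y => congrArg Subtype.val (hg y)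
  obtain ⟨φ, hφ⟩ : ∃ φ : R → ℂ, ∀ (y : R) (hy : y ∈ J), φ y = η (1 + (g ⟨y, hy⟩ : R)) :=
    ⟨fun y => if hy : y ∈ J then η (1 + (g ⟨y, hy⟩ : R)) else 0, fun y hy => dif_pos hy⟩
  obtain ⟨θ, hθ, hθJ⟩ := Pool.Agent.H95.SWX.RG.ext_char J φ
    (fun x hx y hy => by
      rw [hφ x hx, hφ y hy, hφ (x + y) (J.add_mem hx hy)]
      have h1 : (g ⟨x + y, J.add_mem hx hy⟩ : R) = (g ⟨x, hx⟩ : R) + (g ⟨y, hy⟩ : R) +
          (g ⟨x, hx⟩ : R) * (g ⟨y, hy⟩ : R) := by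
        refine lq_inj hJ hh hi hj (g _).2 ?_ ?_
        · exact J.add_mem (J.add_mem (g _).2 (g _).2) (J.mul_mem_left _ (g _).2)
        · rw [hg', lq_mul hJ hh hi hj (g _).2 (g _).2, hg', hg']
      rw [h1, ← hη.mul]
      congr 1
      ring)
    (fun x hx => by
      rw [hφ x hx]
      exact hη.unit _ (u1 hJ (g _).2))
  have hlog : ∀ x ∈ J, η (1 + x) = θ (lq h i j x) := fun x hx => by
    rw [hθJ _ (lq_mem h i j hx), hφ _ (lq_mem h i j hx)]
    have h1 : (g ⟨lq h i j x, lq_mem h i j hx⟩ : R) = x :=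
      lq_inj hJ hh hi hj (g _).2 hx (hg' _)
    rw [h1]
  exact ⟨θ, hθ, hlog⟩

/-- the logarithm maps every ideal in `J` onto itself -/
theorem lq_surj [Finite R] {J : Ideal R} (hJ : J ^ 6 = ⊥) {h i j : R} (hh : 2 * h = 1)
    (hi : 3 * i = 1) (hj : 5 * j = 1) {K : Ideal R} (hK : K ≤ J) {y : R} (hy : y ∈ K) :
    ∃ x ∈ K, lq h i j x = y := by
  have hinj : Function.Injective (fun x : K => (⟨lq h i j x, lq_mem h i j x.2⟩ : K)) := by
    intro x y hxy
    exact Subtype.ext (lq_inj hJ hh hi hj (hK x.2) (hK y.2) (congrArg Subtype.val hxy))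
  have hsurj := Finite.surjective_of_injective hinj
  obtain ⟨x, hx⟩ := hsurj ⟨y, hy⟩
  exact ⟨x, x.2, congrArg Subtype.val hx⟩

/-- a nonzero element has a nonzero multiple which annihilates `J` -/
theorem soc {J : Ideal R} : ∀ n : ℕ, ∀ a : R, a ≠ 0 → (∀ x ∈ J ^ n, a * x = 0) →
    ∃ y : R, a * y ≠ 0 ∧ ∀ t ∈ J, a * y * t = 0 := by
  intro n
  induction n with
  | zero =>
    intro a ha h1
    exact absurd (by simpa using h1 1 (by simp)) ha
  | succ n ih =>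
    intro a ha h1
    by_cases c1 : ∀ t ∈ J, a * t = 0
    · exact ⟨1, by rwa [mul_one], fun t ht => by rw [mul_one]; exact c1 t ht⟩
    push Not at c1
    obtain ⟨t, ht, h2⟩ := c1
    obtain ⟨y, hy1, hy2⟩ := ih (a * t) h2 (fun x hx => by
      rw [mul_assoc]
      refine h1 _ ?_
      rw [pow_succ, mul_comm t x]
      exact Ideal.mul_mem_mul hx ht)
    exact ⟨t * y, by rwa [← mul_assoc], fun s hs => by rw [← mul_assoc]; exact hy2 s hs⟩

/-- a primitive character sees every nonzero element of `J` -/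
theorem nondeg {η : R → ℂ} {J : Ideal R} {h i j : R} {θ : R → ℂ}
    (hprim : ∀ w : R, w ≠ 0 → ∃ r : R, IsUnit (1 + r * w) ∧ η (1 + r * w) ≠ 1)
    (hJ : J ^ 6 = ⊥) (hlog : ∀ x ∈ J, η (1 + x) = θ (lq h i j x)) {a : R} (ha : a ∈ J)
    (ha0 : a ≠ 0) : ∃ s : R, θ (s * a) ≠ 1 := by
  obtain ⟨y, hy0, hyJ⟩ := soc 6 a ha0 (fun x hx => by rw [pmem hJ hx, mul_zero])
  have hwJ : a * y ∈ J := J.mul_mem_right _ ha
  obtain ⟨r, -, hr⟩ := hprim (a * y) hy0
  refine ⟨r * y, ?_⟩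
  have h1 : r * (a * y) ∈ J := J.mul_mem_left _ hwJ
  have h2 : a * y * (a * y) = 0 := hyJ _ hwJ
  have h3 : lq h i j (r * (a * y)) = r * y * a := by
    unfold lq
    linear_combination (-h * r ^ 2 + i * r ^ 3 * (a * y) - h ^ 2 * r ^ 4 * (a * y) ^ 2 +
      j * r ^ 5 * (a * y) ^ 3) * h2
  rw [← h3, ← hlog _ h1]
  exact hr

/-- (RH) the differences of the multiplicative character. -/
theorem pf_RH6 [Fintype R] {η : R → ℂ} {J : Ideal R} {h i j : R} {θ : R → ℂ} (hη : MC η)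
    (hJ : J ^ 6 = ⊥) (hh : 2 * h = 1) (hi : 3 * i = 1) (hj : 5 * j = 1)
    (hlog : ∀ x ∈ J, η (1 + x) = θ (lq h i j x)) {a : R} (ha : a ∈ J) (X : R) :
    (IsUnit X → η (X + a) * (starRingEnd ℂ) (η (X - a)) = θ (a * hq i j a X)) ∧
      (¬ IsUnit X → η (X + a) = 0) := by
  have ha6 : a ^ 6 = 0 := pmem hJ (Ideal.pow_mem_pow ha 6)
  have hnil : IsNilpotent a := ⟨6, ha6⟩
  refine ⟨fun hX => ?_, fun hX => ?_⟩
  · have hY : X * Ring.inverse X = 1 := Ring.mul_inverse_cancel X hX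
    unfold hq
    obtain ⟨Y, hYd⟩ : ∃ Y, Y = Ring.inverse X := ⟨_, rfl⟩
    rw [← hYd] at hY ⊢
    have hu : IsUnit (X - a) := by
      rw [sub_eq_add_neg]
      exact Pool.Agent.H29.TC.unit_add_nil hX hnil.neg
    obtain ⟨z, hz⟩ : ∃ z, z = a * Y := ⟨_, rfl⟩
    have hzJ : z ∈ J := by
      rw [hz]
      exact J.mul_mem_right _ ha
    have hz6 : z ^ 6 = 0 := pmem hJ (Ideal.pow_mem_pow hzJ 6)
    have hXz : X * z = a := by
      rw [hz]
      linear_combination a * hY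
    obtain ⟨w, hw⟩ : ∃ w, w = 2 * (z + z ^ 2 + z ^ 3 + z ^ 4 + z ^ 5) := ⟨_, rfl⟩
    have hwJ : w ∈ J := by
      have e : w = (2 * (1 + z + z ^ 2 + z ^ 3 + z ^ 4)) * z := by rw [hw]; ring
      rw [e]
      exact J.mul_mem_left _ hzJ
    have hmul : (X - a) * (1 + w) = X + a := by
      rw [hw, ← hXz]
      linear_combination (-2 * X) * hz6
    have h5 : η (X + a) * (starRingEnd ℂ) (η (X - a)) = η (1 + w) := by
      rw [← hmul, hη.mul]
      have h6 := hη.conj_mul hu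
      linear_combination (η (1 + w)) * h6
    rw [h5, hlog w hwJ]
    congr 1
    have e1 := lq60 hh hi hj w
    have h7 : 60 * lq h i j w = 60 * (a * (2 * Y + 2 * i * a ^ 2 * Y ^ 3 +
        2 * j * a ^ 4 * Y ^ 5)) := by
      have h8 : a * (2 * Y + 2 * i * a ^ 2 * Y ^ 3 + 2 * j * a ^ 4 * Y ^ 5) =
          2 * z + 2 * i * z ^ 3 + 2 * j * z ^ 5 := by
        rw [hz]
        ring
      rw [h8, e1, hw]
      linear_combination (520 + 2880 * z + 7560 * z ^ 2 + 17200 * z ^ 3 + 32904 * z ^ 4 +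
        54240 * z ^ 5 + 79120 * z ^ 6 + 104640 * z ^ 7 + 124320 * z ^ 8 + 133984 * z ^ 9 +
        131760 * z ^ 10 + 118080 * z ^ 11 + 95520 * z ^ 12 + 70080 * z ^ 13 +
        46224 * z ^ 14 + 26880 * z ^ 15 + 13440 * z ^ 16 + 5760 * z ^ 17 + 1920 * z ^ 18 +
        384 * z ^ 19) * hz6 - 40 * z ^ 3 * hi - 24 * z ^ 5 * hj
    exact (u60 hh hi hj).mul_left_cancel h7
  · apply hη.zero
    intro hu
    apply hX
    have h5 : X = (X + a) + (-a) := by ring
    rw [h5]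
    exact Pool.Agent.H29.TC.unit_add_nil hu hnil.neg

end Pool.Agent.H29.HT
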